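import Mathlib

namespace Pool.Agent.Lib.MP_881467_an

/-- `u` is bad for the residue `P` modulo `6^W` if `⌊3^t u / 2^t⌋` never hits it. -/
def Bad (W P u : ℕ) : Prop := ∀ t : ℕ, ¬ (3 ^ t * u / 2 ^ t ≡ P [MOD 6 ^ W])

/-- Every residue class modulo `2^s` contains a class modulo `2^(s+3W)` without bad elements. -/
lemma exists_good_class (W P s a : ℕ) :
    ∃ u0 : ℕ, u0 ≡ a [MOD 2 ^ s] ∧
      ∀ u, u ≡ u0 [MOD 2 ^ (s + 3 * W)] → ¬ Bad W P u := by
  set t := s + 2 * W with ht
  have htW : t + W = s + 3 * W := by omega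
  -- choose the remainder r
  have hcop : Nat.Coprime (2 ^ s) (3 ^ W) := Nat.Coprime.pow _ _ (by norm_num)
  obtain ⟨r0, hr1, hr2⟩ := Nat.chineseRemainder hcop (3 ^ t * a) ((3 ^ W - 1) * (2 ^ t * P))
  set r := r0 % (2 ^ s * 3 ^ W) with hr
  have hrs : r ≡ 3 ^ t * a [MOD 2 ^ s] := by
    have : r ≡ r0 [MOD 2 ^ s] := (Nat.mod_modEq r0 _).of_mul_right _
    exact this.trans hr1
  have hrW : r ≡ (3 ^ W - 1) * (2 ^ t * P) [MOD 3 ^ W] := by
    have : r ≡ r0 [MOD 3 ^ W] := (Nat.mod_modEq r0 _).of_mul_left _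
    exact this.trans hr2
  have hrW' : r + 2 ^ t * P ≡ 0 [MOD 3 ^ W] := by
    have h1 := hrW.add_right (2 ^ t * P)
    have h3 : 1 ≤ 3 ^ W := Nat.one_le_pow _ _ (by norm_num)
    have h2 : (3 ^ W - 1) * (2 ^ t * P) + 2 ^ t * P = 3 ^ W * (2 ^ t * P) := by
      obtain ⟨c, hc⟩ := Nat.exists_eq_add_of_le h3
      rw [hc, Nat.add_sub_cancel_left]; ring
    rw [h2] at h1
    exact h1.trans (Nat.modEq_zero_iff_dvd.mpr (Dvd.intro _ rfl))
  have hrlt : r < 2 ^ t := by
    have h1 : r < 2 ^ s * 3 ^ W := Nat.mod_lt _ (by positivity)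
    have h2 : (3 : ℕ) ^ W ≤ 4 ^ W := Nat.pow_le_pow_left (by norm_num) W
    have h3 : (2 : ℕ) ^ t = 2 ^ s * 4 ^ W := by
      rw [ht, pow_add, pow_mul]; norm_num
    rw [h3]
    exact lt_of_lt_of_le h1 (Nat.mul_le_mul_left _ h2)
  -- solve `3^t u0 = 2^t P + r` modulo `2^(t+W)`
  have hcop2 : Nat.Coprime (3 ^ t) (2 ^ (t + W)) := Nat.Coprime.pow _ _ (by norm_num)
  obtain ⟨u0, -, hu0⟩ := Nat.exists_mul_mod_eq_of_coprime (2 ^ t * P + r) hcop2 (by positivity)
  have hu0' : 3 ^ t * u0 ≡ 2 ^ t * P + r [MOD 2 ^ (t + W)] := hu0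
  refine ⟨u0, ?_, ?_⟩
  · have h1 : 3 ^ t * u0 ≡ 2 ^ t * P + r [MOD 2 ^ s] := by
      refine hu0'.of_dvd (pow_dvd_pow 2 (by omega))
    have h2 : 2 ^ t * P + r ≡ 3 ^ t * a [MOD 2 ^ s] := by
      have h3 : 2 ^ t * P ≡ 0 [MOD 2 ^ s] :=
        Nat.modEq_zero_iff_dvd.mpr (Dvd.dvd.mul_right (pow_dvd_pow 2 (by omega)) _)
      simpa using h3.add hrs
    exact Nat.ModEq.cancel_left_of_coprime
      (Nat.Coprime.pow _ _ (by norm_num : Nat.Coprime 2 3)) (h1.trans h2)
  · intro u hu hbad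
    rw [← htW] at hu
    have h1 : 3 ^ t * u ≡ 2 ^ t * P + r [MOD 2 ^ (t + W)] := (hu.mul_left _).trans hu0'
    refine hbad t ?_
    set v := 3 ^ t * u / 2 ^ t with hv
    -- remainder of `3^t u` modulo `2^t` is `r`
    have h2 : 3 ^ t * u ≡ r [MOD 2 ^ t] := by
      have h3 : 3 ^ t * u ≡ 2 ^ t * P + r [MOD 2 ^ t] := h1.of_dvd (pow_dvd_pow 2 (by omega))
      have h4 : 2 ^ t * P + r ≡ r [MOD 2 ^ t] := by
        simp
      exact h3.trans h4
    have h5 : 3 ^ t * u % 2 ^ t = r := by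
      have : 3 ^ t * u % 2 ^ t = r % 2 ^ t := h2
      rw [this, Nat.mod_eq_of_lt hrlt]
    have h6 : 3 ^ t * u = 2 ^ t * v + r := by
      rw [← h5, hv]; exact (Nat.div_add_mod _ _).symm
    -- modulo `2^W`
    have h7 : v ≡ P [MOD 2 ^ W] := by
      rw [h6, pow_add] at h1
      have h8 : 2 ^ t * v ≡ 2 ^ t * P [MOD 2 ^ t * 2 ^ W] := Nat.ModEq.add_right_cancel' r h1
      exact Nat.ModEq.mul_left_cancel' (by positivity) h8
    -- modulo `3^W`
    have h9 : v ≡ P [MOD 3 ^ W] := by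
      have h10 : 2 ^ t * v + r ≡ 0 [MOD 3 ^ W] := by
        rw [← h6]
        exact Nat.modEq_zero_iff_dvd.mpr (Dvd.dvd.mul_right (pow_dvd_pow 3 (by omega)) _)
      have h11 : 2 ^ t * v + r ≡ 2 ^ t * P + r [MOD 3 ^ W] := by
        refine h10.trans ?_
        rw [add_comm (2 ^ t * P)]
        exact hrW'.symm
      have h12 : 2 ^ t * v ≡ 2 ^ t * P [MOD 3 ^ W] := Nat.ModEq.add_right_cancel' r h11
      exact Nat.ModEq.cancel_left_of_coprime
        (Nat.Coprime.pow _ _ (by norm_num : Nat.Coprime 3 2)) h12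
    have h13 : (6 : ℕ) ^ W = 2 ^ W * 3 ^ W := by rw [← mul_pow]; norm_num
    rw [h13]
    exact (Nat.modEq_and_modEq_iff_modEq_mul (Nat.Coprime.pow _ _ (by norm_num))).mp ⟨h7, h9⟩

/-- residues modulo `2^(3Wi)` of bad numbers -/
noncomputable def badRes (W P i : ℕ) : Finset ℕ := by
  classical
  exact (Finset.range (2 ^ (3 * W * i))).filter
    (fun c => ∃ u, Bad W P u ∧ u % 2 ^ (3 * W * i) = c)

lemma mem_badRes {W P i c : ℕ} :
    c ∈ badRes W P i ↔ ∃ u, Bad W P u ∧ u % 2 ^ (3 * W * i) = c := by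
  classical
  unfold badRes
  rw [Finset.mem_filter]
  constructor
  · exact fun h => h.2
  · rintro ⟨u, hu, rfl⟩
    exact ⟨Finset.mem_range.mpr (Nat.mod_lt _ (by positivity)), u, hu, rfl⟩

lemma card_badRes (W P i : ℕ) : (badRes W P i).card ≤ (2 ^ (3 * W) - 1) ^ i := by
  induction i with
  | zero =>
    have : badRes W P 0 ⊆ {0} := by
      intro c hc
      obtain ⟨u, -, rfl⟩ := mem_badRes.mp hc
      simp [Nat.mod_one]
    simpa using Finset.card_le_card this
  | succ i ih =>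
    -- the excluded extension
    choose e he1 he2 using fun a => exists_good_class W P (3 * W * i) a
    set N := 2 ^ (3 * W * i) with hN
    set M := 2 ^ (3 * W) with hM
    have hNM : 2 ^ (3 * W * (i + 1)) = N * M := by rw [hN, hM, ← pow_add]; congr 1
    have hNM' : 2 ^ (3 * W * i + 3 * W) = N * M := by rw [hN, hM, ← pow_add]
    have hNpos : 0 < N := by positivity
    have hMpos : 0 < M := by positivity
    let S : Finset (Σ _ : ℕ, ℕ) :=
      (badRes W P i).sigma (fun a => (Finset.range M).erase (e a / N % M))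
    have hS : S.card ≤ (M - 1) * (badRes W P i).card := by
      rw [Finset.card_sigma]
      have : ∀ a ∈ badRes W P i, ((Finset.range M).erase (e a / N % M)).card = M - 1 := by
        intro a _
        rw [Finset.card_erase_of_mem (Finset.mem_range.mpr (Nat.mod_lt _ hMpos)),
          Finset.card_range]
      rw [Finset.sum_congr rfl this, Finset.sum_const, smul_eq_mul, mul_comm]
    have hmap : (badRes W P (i + 1)).card ≤ S.card := by
      refine Finset.card_le_card_of_injOn (fun c => ⟨c % N, c / N⟩) ?_ ?_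
      · intro c hc
        obtain ⟨u, hu, huc⟩ := mem_badRes.mp hc
        rw [hNM] at huc
        have hcN : c % N = u % N := by
          rw [← huc, Nat.mod_mul_right_mod]
        have hclt : c < N * M := by rw [← huc]; exact Nat.mod_lt _ (by positivity)
        have hcM : c / N < M := Nat.div_lt_of_lt_mul hclt
        simp only [S, Finset.coe_sigma, Set.mem_sigma_iff, Finset.mem_coe]
        refine ⟨?_, ?_⟩
        · rw [mem_badRes]
          exact ⟨u, hu, by rw [hcN]⟩
        · rw [Finset.mem_erase, Finset.mem_range]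
          refine ⟨fun hce => ?_, hcM⟩
          -- then `u ≡ e (c % N)` modulo `N*M`, contradiction
          have h1 := he1 (c % N)
          refine he2 (c % N) u ?_ hu
          rw [hNM']
          have h2 : e (c % N) % (N * M) = c := by
            rw [Nat.mod_mul, ← hce]
            have h3 : e (c % N) % N = c % N := by
              have : e (c % N) % N = (c % N) % N := h1
              rw [this, Nat.mod_mod]
            rw [h3]
            exact Nat.mod_add_div c N
          change u % (N * M) = e (c % N) % (N * M)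
          rw [huc, h2]
      · intro c _ c' _ h
        have h' : (⟨c % N, c / N⟩ : Σ _ : ℕ, ℕ) = ⟨c' % N, c' / N⟩ := h
        rw [Sigma.mk.injEq] at h'
        have h1 := h'.1
        have h2 := eq_of_heq h'.2
        rw [← Nat.mod_add_div c N, ← Nat.mod_add_div c' N, h1, h2]
    calc (badRes W P (i + 1)).card ≤ (M - 1) * (badRes W P i).card := hmap.trans hS
      _ ≤ (M - 1) * (M - 1) ^ i := Nat.mul_le_mul_left _ ih
      _ = (M - 1) ^ (i + 1) := by ring

/-- Counting bad values of a map which is injective modulo `2^(3Wi)` on a finite set. -/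
lemma card_bad_le (W P i : ℕ) (φ : ℕ → ℕ) (A : Finset ℕ)
    (hA : ∀ g ∈ A, Bad W P (φ g))
    (hinj : ∀ g ∈ A, ∀ g' ∈ A, φ g % 2 ^ (3 * W * i) = φ g' % 2 ^ (3 * W * i) → g = g') :
    A.card ≤ (2 ^ (3 * W) - 1) ^ i := by
  refine le_trans ?_ (card_badRes W P i)
  refine Finset.card_le_card_of_injOn (fun g => φ g % 2 ^ (3 * W * i)) ?_ ?_
  · intro g hg
    exact Finset.mem_coe.mpr (mem_badRes.mpr ⟨φ g, hA g hg, rfl⟩)
  · intro g hg g' hg' h
    exact hinj g hg g' hg' h

end Pool.Agent.Lib.MP_881467_an
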