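import Mathlib

namespace Pool.Agent.Lib.MP_881467_an

/-- The local rule `f(s,t) = (3 s mod 6) + ⌊3 t / 6⌋` of the automaton multiplying by `3`
in base `6`. -/
def localRule (s t : Fin 6) : Fin 6 :=
  ⟨(3 * s.val) % 6 + (3 * t.val) / 6, by have := s.isLt; have := t.isLt; omega⟩

/-- The automaton `F_{×3}`: `F(x)_i = f(x_i, x_{i+1})`. -/
def mulThree (x : ℤ → Fin 6) : ℤ → Fin 6 := fun i => localRule (x i) (x (i + 1))

/-- The automaton `F_{×3/2}`: apply `F_{×3}` twice and shift one cell to the right. -/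
def mulThreeHalves (x : ℤ → Fin 6) : ℤ → Fin 6 := fun i => mulThree (mulThree x) (i - 1)

/-- Every pattern `p` with domain `D` is shown at position `j` by the forward orbit of `x`
under `F_{×3/2}`. -/
def AllPatternsAt (x : ℤ → Fin 6) (D : Finset ℤ) (j : ℤ) : Prop :=
  ∀ p : ℤ → Fin 6, ∃ t : ℕ, ∀ d ∈ D, (mulThreeHalves^[t] x) (j + d) = p d

/-- The `0`-finite configuration `x` with `α(x) = ∑ x_i 6^{-i} = m`: the base-`6` expansion of the
natural number `m`, with the units digit in cell `0`. -/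
def ofNatConf (m : ℕ) : ℤ → Fin 6 := fun i =>
  if i ≤ 0 then ⟨m / 6 ^ (-i).toNat % 6, Nat.mod_lt _ (by norm_num)⟩ else 0

end Pool.Agent.Lib.MP_881467_an
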