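import Mathlib
import Pool.Agent.Lib.MP_881467_an.Defs
import Pool.Agent.Lib.MP_881467_an.Arith

namespace Pool.Agent.Lib.MP_881467_an

/-- the configuration with digits of `M`, units digit in cell `n` -/
def cfg (M : ℕ) (n : ℤ) : ℤ → Fin 6 := fun i =>
  if i ≤ n then ⟨M / 6 ^ (n - i).toNat % 6, Nat.mod_lt _ (by norm_num)⟩ else 0

lemma cfg_of_le {M : ℕ} {n i : ℤ} (k : ℕ) (h : n - i = k) :
    (cfg M n i).val = M / 6 ^ k % 6 := by
  have h1 : i ≤ n := by omega
  have h2 : (n - i).toNat = k := by omega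
  simp [cfg, h1, h2]

lemma cfg_of_gt {M : ℕ} {n i : ℤ} (h : n < i) : cfg M n i = 0 := by
  have h1 : ¬ i ≤ n := by omega
  simp [cfg, h1]

lemma mulThree_cfg (M : ℕ) (n : ℤ) : mulThree (cfg M n) = cfg (3 * M) n := by
  funext i
  apply Fin.ext
  change (3 * (cfg M n i).val) % 6 + (3 * (cfg M n (i + 1)).val) / 6 = _
  rcases lt_trichotomy i n with h | h | h
  · obtain ⟨k, hk⟩ : ∃ k : ℕ, n - i = k + 1 := ⟨(n - i - 1).toNat, by omega⟩
    rw [cfg_of_le (k + 1) (by push_cast; omega), cfg_of_le k (by omega),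
      cfg_of_le (k + 1) (by push_cast; omega)]
    have h1 : M / 6 ^ (k + 1) = M / 6 ^ k / 6 := by rw [pow_succ, Nat.div_div_eq_div_mul]
    have h2 : 3 * M / 6 ^ (k + 1) = M / 6 ^ k / 2 := by
      rw [Nat.div_div_eq_div_mul, pow_succ]
      have : 6 ^ k * 6 = 3 * (6 ^ k * 2) := by ring
      rw [this, Nat.mul_div_mul_left _ _ (by norm_num)]
    rw [h1, h2]
    omega
  · subst h
    rw [cfg_of_gt (i := i + 1) (by omega), cfg_of_le 0 (by simp), cfg_of_le 0 (by simp)]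
    simp only [pow_zero, Nat.div_one, Fin.val_zero, mul_zero, Nat.zero_div, add_zero]
    omega
  · rw [cfg_of_gt h, cfg_of_gt (by omega), cfg_of_gt h]
    rfl

lemma mulThreeHalves_cfg (M : ℕ) (n : ℤ) :
    mulThreeHalves (cfg M n) = cfg (9 * M) (n + 1) := by
  funext i
  have h : mulThree (mulThree (cfg M n)) = cfg (3 * (3 * M)) n := by
    rw [mulThree_cfg, mulThree_cfg]
  change mulThree (mulThree (cfg M n)) (i - 1) = _
  rw [h]
  have h9 : 3 * (3 * M) = 9 * M := by ring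
  rw [h9]
  unfold cfg
  have h1 : (i - 1 ≤ n) ↔ (i ≤ n + 1) := by omega
  have h2 : n - (i - 1) = n + 1 - i := by ring
  simp only [h1, h2]

lemma iterate_cfg (M : ℕ) (n : ℤ) (t : ℕ) :
    mulThreeHalves^[t] (cfg M n) = cfg (9 ^ t * M) (n + t) := by
  induction t with
  | zero => simp
  | succ t ih =>
    rw [Function.iterate_succ_apply', ih, mulThreeHalves_cfg]
    congr 1
    · ring
    · push_cast; ring

/-- prescribing finitely many digits -/
lemma exists_digits (y : ℕ → Fin 6) (m : ℕ) :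
    ∃ M : ℕ, (∀ k < m, M / 6 ^ k % 6 = (y k).val) ∧ M < 6 ^ m := by
  induction m generalizing y with
  | zero => exact ⟨0, by simp, by simp⟩
  | succ m ih =>
    obtain ⟨M', h1, h2⟩ := ih (fun k => y (k + 1))
    refine ⟨6 * M' + (y 0).val, ?_, ?_⟩
    · intro k hk
      rcases k with _ | k
      · have := (y 0).isLt
        simp
      · have h3 : (6 * M' + (y 0).val) / 6 ^ (k + 1) = M' / 6 ^ k := by
          rw [pow_succ', ← Nat.div_div_eq_div_mul]
          congr 1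
          have := (y 0).isLt
          omega
        rw [h3]
        exact h1 k (by omega)
    · have := (y 0).isLt
      rw [pow_succ]
      omega

/-- every `0`-finite configuration is of the form `cfg M n` -/
lemma exists_cfg (x : ℤ → Fin 6) (hx : {i | x i ≠ 0}.Finite) (hne : ∃ i, x i ≠ 0) :
    ∃ (M : ℕ) (n : ℕ), 0 < M ∧ x = cfg M n := by
  obtain ⟨B, hB⟩ : ∃ B : ℕ, ∀ i, x i ≠ 0 → -(B : ℤ) < i ∧ i < B := by
    obtain ⟨B, hB⟩ := (hx.image Int.natAbs).bddAbove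
    refine ⟨B + 1, fun i hi => ?_⟩
    have : i.natAbs ≤ B := hB ⟨i, hi, rfl⟩
    omega
  obtain ⟨M, hM1, hM2⟩ := exists_digits (fun k => x ((B : ℤ) - k)) (2 * B)
  have hcfg : x = cfg M B := by
    funext i
    by_cases h1 : (B : ℤ) < i
    · rw [cfg_of_gt h1]
      by_contra h
      have := hB i h
      omega
    · obtain ⟨k, hk⟩ : ∃ k : ℕ, (B : ℤ) - i = k := ⟨((B : ℤ) - i).toNat, by omega⟩
      apply Fin.ext
      rw [cfg_of_le k hk]
      by_cases h2 : k < 2 * B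
      · rw [hM1 k h2]
        congr 2
        omega
      · have h3 : x i = 0 := by
          by_contra h
          have := hB i h
          omega
        rw [h3, Nat.div_eq_of_lt]
        · rfl
        · exact lt_of_lt_of_le hM2 (Nat.pow_le_pow_right (by norm_num) (by omega))
  refine ⟨M, B, ?_, hcfg⟩
  rcases Nat.eq_zero_or_pos M with h | h
  · exfalso
    obtain ⟨i, hi⟩ := hne
    apply hi
    rw [hcfg, h]
    apply Fin.ext
    unfold cfg
    split_ifs <;> simp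
  · exact h

/-- If some time `s` shows the residue `P` (prescribing the digits of the pattern), then the
pattern occurs. -/
lemma pattern_of_not_bad (M : ℕ) (n : ℤ) (j : ℤ) (w g : ℕ) (hg : (g : ℤ) = j + w - n)
    (p : ℤ → Fin 6) (P : ℕ) (hP : ∀ k < 2 * w + 1, P / 6 ^ k % 6 = (p (w - k)).val)
    (hnb : ¬ Bad (2 * w + 1) P (9 ^ g * M)) (D : Finset ℤ) (hD : ∀ d ∈ D, |d| ≤ w) :
    ∃ t : ℕ, ∀ d ∈ D, (mulThreeHalves^[t] (cfg M n)) (j + d) = p d := by
  unfold Bad at hnb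
  push Not at hnb
  obtain ⟨s, hs⟩ := hnb
  refine ⟨g + s, fun d hd => ?_⟩
  have hdw := abs_le.mp (hD d hd)
  obtain ⟨k, hk⟩ : ∃ k : ℕ, (w : ℤ) - d = k := ⟨((w : ℤ) - d).toNat, by omega⟩
  have hk2 : k < 2 * w + 1 := by omega
  rw [iterate_cfg]
  apply Fin.ext
  rw [cfg_of_le (s + k) (by push_cast; omega)]
  have h1 : 9 ^ (g + s) * M / 6 ^ (s + k) = 3 ^ s * (9 ^ g * M) / 2 ^ s / 6 ^ k := by
    rw [Nat.div_div_eq_div_mul]
    have h9 : (9 : ℕ) ^ (g + s) = 3 ^ s * (3 ^ s * 9 ^ g) := by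
      rw [pow_add, show (9 : ℕ) = 3 * 3 by norm_num, mul_pow, mul_pow]; ring
    have h6 : (6 : ℕ) ^ (s + k) = 3 ^ s * (2 ^ s * 6 ^ k) := by
      rw [pow_add, show (6 : ℕ) = 3 * 2 by norm_num, mul_pow]
      ring
    rw [h9, h6, mul_assoc, Nat.mul_div_mul_left _ _ (by positivity), mul_assoc]
  rw [h1]
  have h2 : 3 ^ s * (9 ^ g * M) / 2 ^ s / 6 ^ k ≡ P / 6 ^ k [MOD 6] := by
    have h3 : (6 : ℕ) ^ (2 * w + 1) = 6 ^ k * 6 ^ (2 * w + 1 - k) := by
      rw [← pow_add]; congr 1; omega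
    have h4 := hs
    rw [h3] at h4
    have h5 : 3 ^ s * (9 ^ g * M) / 2 ^ s / 6 ^ k ≡ P / 6 ^ k [MOD 6 ^ (2 * w + 1 - k)] := by
      unfold Nat.ModEq at h4 ⊢
      generalize 3 ^ s * (9 ^ g * M) / 2 ^ s = A at h4 ⊢
      rw [← Nat.mod_mul_right_div_self A, ← Nat.mod_mul_right_div_self P, h4]
    refine h5.of_dvd ?_
    obtain ⟨q, hq⟩ : ∃ q, 2 * w + 1 - k = q + 1 := ⟨2 * w - k, by omega⟩
    rw [hq, pow_succ]
    exact Dvd.intro_left _ rfl
  have h3 : 3 ^ s * (9 ^ g * M) / 2 ^ s / 6 ^ k % 6 = P / 6 ^ k % 6 := h2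
  rw [h3, hP k hk2]
  congr 2
  omega

end Pool.Agent.Lib.MP_881467_an
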