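import Mathlib
import Pool.Agent.Lib.MP_881467_an.Dynamics

namespace Pool.Agent.Lib.MP_881467_an

lemma dvd_of_dvd_nine_pow {L M n : ℕ} (h : (2 : ℤ) ^ L ∣ (M : ℤ) * (9 ^ n - 1)) :
    (2 : ℤ) ^ L ∣ (M : ℤ) * (8 * n) := by
  rw [pow_dvd_iff_le_emultiplicity, emultiplicity_mul Int.prime_two] at h ⊢
  have h1 := Int.two_pow_sub_pow' (x := 9) (y := 1) n (by norm_num) (by norm_num)
  rw [one_pow] at h1
  rw [emultiplicity_mul Int.prime_two]
  rw [h1] at h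
  have h2 : (9 : ℤ) - 1 = 8 := by norm_num
  rw [h2] at h
  exact h

lemma inj_nine_pow {L M : ℕ} (hM : 0 < M) {a N : ℕ} (hN : 8 * M * N ≤ 2 ^ L) {g0 g g' : ℕ}
    (hg : g ∈ Finset.Ico a (a + N)) (hg' : g' ∈ Finset.Ico a (a + N))
    (h : 9 ^ (g + g0) * M % 2 ^ L = 9 ^ (g' + g0) * M % 2 ^ L) : g = g' := by
  rw [Finset.mem_Ico] at hg hg'
  wlog hlt : g' < g generalizing g g' with H
  · rcases Nat.lt_trichotomy g g' with h1 | h1 | h1
    · exact (H hg' hg h.symm h1).symm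
    · exact h1
    · exact absurd h1 hlt
  exfalso
  obtain ⟨n, rfl⟩ := Nat.exists_eq_add_of_lt hlt
  have h1 : (2 : ℤ) ^ L ∣ (9 : ℤ) ^ (g' + g0) * (M * (9 ^ (n + 1) - 1)) := by
    have h2 := (Nat.modEq_iff_dvd.mp (show 9 ^ (g' + g0) * M ≡ 9 ^ (g' + n + 1 + g0) * M
      [MOD 2 ^ L] from h.symm))
    push_cast at h2
    have h3 : (9 : ℤ) ^ (g' + g0) * (M * (9 ^ (n + 1) - 1)) =
        9 ^ (g' + n + 1 + g0) * M - 9 ^ (g' + g0) * M := by
      have : g' + n + 1 + g0 = (g' + g0) + (n + 1) := by omega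
      rw [this, pow_add]; ring
    rw [h3]
    exact h2
  have hcop : IsCoprime ((2 : ℤ) ^ L) (9 ^ (g' + g0)) := by
    apply IsCoprime.pow
    norm_num
  have h4 := dvd_of_dvd_nine_pow (hcop.dvd_of_dvd_mul_left h1)
  have h5 : (2 : ℤ) ^ L ≤ M * (8 * ((n + 1 : ℕ) : ℤ)) := by
    apply Int.le_of_dvd _ h4
    positivity
  have h6 : 2 ^ L ≤ M * (8 * (n + 1)) := by exact_mod_cast h5
  have h7 : n + 1 < N := by omega
  have h8 : M * (8 * (n + 1)) < 8 * M * N := by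
    have : M * (8 * (n + 1)) = 8 * M * (n + 1) := by ring
    rw [this]
    exact Nat.mul_lt_mul_of_pos_left h7 (by omega)
  omega

/-- power saving bound extracted from the digit count -/
lemma exists_rpow_bound (B c : ℕ) (hB : 2 < B) (hc : 0 < c) :
    ∃ C θ : ℝ, θ < 1 ∧ ∀ N : ℕ, 1 ≤ N → ∃ i : ℕ, c * N ≤ B ^ i ∧
      (((B - 1) ^ i : ℕ) : ℝ) ≤ C * (N : ℝ) ^ θ := by
  have hB1 : (1 : ℝ) < B := by exact_mod_cast (by omega : 1 < B)
  have hBm : (1 : ℝ) < ((B - 1 : ℕ) : ℝ) := by exact_mod_cast (by omega : 1 < B - 1)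
  set θ := Real.logb B ((B - 1 : ℕ) : ℝ) with hθ
  have hBθ : (B : ℝ) ^ θ = ((B - 1 : ℕ) : ℝ) :=
    Real.rpow_logb (by linarith) (by linarith) (by linarith)
  have hθ0 : 0 ≤ θ := Real.logb_nonneg hB1 hBm.le
  have hθ1 : θ < 1 := by
    rw [hθ, Real.logb_lt_iff_lt_rpow hB1 (by linarith), Real.rpow_one]
    exact_mod_cast (by omega : B - 1 < B)
  refine ⟨((B - 1 : ℕ) : ℝ) * (c : ℝ) ^ θ, θ, hθ1, fun N hN => ⟨Nat.clog B (c * N), ?_, ?_⟩⟩
  · exact Nat.le_pow_clog (by omega) _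
  · have hcN : 1 ≤ c * N := Nat.mul_pos hc hN
    have hmain : (((B - 1) ^ (Nat.clog B (c * N) - 1) : ℕ) : ℝ) ≤ ((c * N : ℕ) : ℝ) ^ θ := by
      have h1 : B ^ (Nat.clog B (c * N) - 1) ≤ c * N := by
        rcases Nat.lt_or_ge 1 (c * N) with h | h
        · exact (Nat.pow_pred_clog_lt_self (by omega) h).le
        · have : c * N = 1 := by omega
          rw [this]; simp
      have h2 : ((B ^ (Nat.clog B (c * N) - 1) : ℕ) : ℝ) ^ θ ≤ ((c * N : ℕ) : ℝ) ^ θ := by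
        apply Real.rpow_le_rpow (by positivity) _ hθ0
        exact_mod_cast h1
      refine le_trans (le_of_eq ?_) h2
      push_cast
      rw [← Real.rpow_natCast, ← Real.rpow_natCast, ← Real.rpow_mul (by positivity), mul_comm _ θ,
        Real.rpow_mul (by positivity), hBθ]
    have hle : (((B - 1) ^ Nat.clog B (c * N) : ℕ) : ℝ) ≤
        ((B - 1 : ℕ) : ℝ) * (((B - 1) ^ (Nat.clog B (c * N) - 1) : ℕ) : ℝ) := by
      have : (B - 1) ^ Nat.clog B (c * N) ≤ (B - 1) * (B - 1) ^ (Nat.clog B (c * N) - 1) := by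
        rw [← pow_succ']
        exact Nat.pow_le_pow_right (by omega) (by omega)
      exact_mod_cast this
    calc (((B - 1) ^ Nat.clog B (c * N) : ℕ) : ℝ)
        ≤ ((B - 1 : ℕ) : ℝ) * (((B - 1) ^ (Nat.clog B (c * N) - 1) : ℕ) : ℝ) := hle
      _ ≤ ((B - 1 : ℕ) : ℝ) * ((c * N : ℕ) : ℝ) ^ θ := by gcongr
      _ = ((B - 1 : ℕ) : ℝ) * (c : ℝ) ^ θ * (N : ℝ) ^ θ := by
        push_cast
        rw [Real.mul_rpow (by positivity) (by positivity)]
        ring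

/-- a finite set of integers is bounded -/
lemma exists_bound (D : Finset ℤ) (b : ℕ) : ∃ w : ℕ, b ≤ w ∧ ∀ d ∈ D, |d| ≤ w := by
  refine ⟨max b (D.sup Int.natAbs), le_max_left _ _, fun d hd => ?_⟩
  have h1 : d.natAbs ≤ D.sup Int.natAbs := Finset.le_sup (f := Int.natAbs) hd
  have h2 : D.sup Int.natAbs ≤ max b (D.sup Int.natAbs) := le_max_right _ _
  rw [Int.abs_eq_natAbs]
  exact_mod_cast h1.trans h2

/-- failing patterns yield bad numbers -/
lemma exists_bad (M : ℕ) (n : ℤ) (j : ℤ) (w g : ℕ) (hg : (g : ℤ) = j + w - n)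
    (D : Finset ℤ) (hD : ∀ d ∈ D, |d| ≤ w) (h : ¬ AllPatternsAt (cfg M n) D j) :
    ∃ P < 6 ^ (2 * w + 1), Bad (2 * w + 1) P (9 ^ g * M) := by
  unfold AllPatternsAt at h
  push Not at h
  obtain ⟨p, hp⟩ := h
  obtain ⟨P, hP1, hP2⟩ := exists_digits (fun k => p (w - k)) (2 * w + 1)
  refine ⟨P, hP2, ?_⟩
  by_contra hnb
  obtain ⟨t, ht⟩ := pattern_of_not_bad M n j w g hg p P hP1 hnb D hD
  obtain ⟨d, hd, hne⟩ := hp t
  exact hne (ht d hd)

open Classical in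
/-- (A) -/
theorem positions (x : ℤ → Fin 6) (hx : {i | x i ≠ 0}.Finite) (hne : ∃ i, x i ≠ 0)
    (D : Finset ℤ) :
    ∃ C θ : ℝ, θ < 1 ∧ ∀ a N : ℕ, 1 ≤ N →
      (((Finset.Ico a (a + N)).filter (fun j : ℕ => ¬ AllPatternsAt x D j)).card : ℝ) ≤
        C * (N : ℝ) ^ θ := by
  obtain ⟨M, n, hM, rfl⟩ := exists_cfg x hx hne
  obtain ⟨w, hnw, hD⟩ := exists_bound D n
  set W := 2 * w + 1 with hW
  have hB : 2 < 2 ^ (3 * W) := by
    calc 2 < 2 ^ 3 := by norm_num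
      _ ≤ 2 ^ (3 * W) := Nat.pow_le_pow_right (by norm_num) (by omega)
  obtain ⟨C, θ, hθ, hbound⟩ := exists_rpow_bound (2 ^ (3 * W)) (8 * M) hB (by omega)
  refine ⟨6 ^ W * C, θ, hθ, fun a N hN => ?_⟩
  obtain ⟨i, hi1, hi2⟩ := hbound N hN
  set S := (Finset.Ico a (a + N)).filter (fun j : ℕ => ¬ AllPatternsAt (cfg M n) D j) with hS
  let T : ℕ → Finset ℕ := fun P =>
    (Finset.Ico a (a + N)).filter (fun j : ℕ => Bad W P (9 ^ (j + (w - n)) * M))
  have hsub : S ⊆ (Finset.range (6 ^ W)).biUnion T := by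
    intro j hj
    rw [hS, Finset.mem_filter] at hj
    obtain ⟨P, hP1, hP2⟩ := exists_bad M n j w (j + (w - n)) (by omega) D hD hj.2
    rw [Finset.mem_biUnion]
    exact ⟨P, Finset.mem_range.mpr hP1, Finset.mem_filter.mpr ⟨hj.1, hP2⟩⟩
  have hT : ∀ P, (T P).card ≤ (2 ^ (3 * W) - 1) ^ i := by
    intro P
    refine card_bad_le W P i (fun j => 9 ^ (j + (w - n)) * M) (T P)
      (fun g hg => (Finset.mem_filter.mp hg).2) (fun g hg g' hg' h => ?_)
    rw [← pow_mul] at hi1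
    exact inj_nine_pow hM hi1 (Finset.mem_filter.mp hg).1 (Finset.mem_filter.mp hg').1 h
  have hcard : S.card ≤ 6 ^ W * (2 ^ (3 * W) - 1) ^ i := by
    calc S.card ≤ ((Finset.range (6 ^ W)).biUnion T).card := Finset.card_le_card hsub
      _ ≤ ∑ P ∈ Finset.range (6 ^ W), (T P).card := Finset.card_biUnion_le
      _ ≤ ∑ _P ∈ Finset.range (6 ^ W), (2 ^ (3 * W) - 1) ^ i := Finset.sum_le_sum fun P _ => hT P
      _ = 6 ^ W * (2 ^ (3 * W) - 1) ^ i := by simp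
  calc (S.card : ℝ) ≤ ((6 ^ W * (2 ^ (3 * W) - 1) ^ i : ℕ) : ℝ) := by exact_mod_cast hcard
    _ = 6 ^ W * (((2 ^ (3 * W) - 1) ^ i : ℕ) : ℝ) := by push_cast; ring
    _ ≤ 6 ^ W * (C * (N : ℝ) ^ θ) := by gcongr
    _ = 6 ^ W * C * (N : ℝ) ^ θ := by ring

lemma ofNatConf_eq (m : ℕ) : ofNatConf m = cfg m 0 := by
  funext i
  unfold ofNatConf cfg
  simp

open Classical in
/-- (B) -/
theorem configurations (D : Finset ℤ) (j : ℤ) :
    ∃ C θ : ℝ, θ < 1 ∧ ∀ a N : ℕ, 1 ≤ N →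
      (((Finset.Ico a (a + N)).filter (fun m : ℕ => ¬ AllPatternsAt (ofNatConf m) D j)).card : ℝ) ≤
        C * (N : ℝ) ^ θ := by
  obtain ⟨w, -, hD⟩ := exists_bound (D.image (fun d => j + d)) 0
  set W := 2 * w + 1 with hW
  have hB : 2 < 2 ^ (3 * W) := by
    calc 2 < 2 ^ 3 := by norm_num
      _ ≤ 2 ^ (3 * W) := Nat.pow_le_pow_right (by norm_num) (by omega)
  obtain ⟨C, θ, hθ, hbound⟩ := exists_rpow_bound (2 ^ (3 * W)) 1 hB (by omega)
  refine ⟨6 ^ W * C, θ, hθ, fun a N hN => ?_⟩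
  obtain ⟨i, hi1, hi2⟩ := hbound N hN
  set S := (Finset.Ico a (a + N)).filter (fun m : ℕ => ¬ AllPatternsAt (ofNatConf m) D j) with hS
  let T : ℕ → Finset ℕ := fun P =>
    (Finset.Ico a (a + N)).filter (fun m : ℕ => Bad W P (9 ^ w * m))
  have hsub : S ⊆ (Finset.range (6 ^ W)).biUnion T := by
    intro m hm
    rw [hS, Finset.mem_filter] at hm
    have hnot : ¬ AllPatternsAt (cfg m 0) (D.image (fun d => j + d)) 0 := by
      intro hall
      apply hm.2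
      intro p
      obtain ⟨t, ht⟩ := hall (fun e => p (e - j))
      refine ⟨t, fun d hd => ?_⟩
      have := ht (j + d) (Finset.mem_image_of_mem _ hd)
      rw [ofNatConf_eq]
      simpa using this
    obtain ⟨P, hP1, hP2⟩ := exists_bad m 0 0 w w (by simp) _ hD hnot
    rw [Finset.mem_biUnion]
    exact ⟨P, Finset.mem_range.mpr hP1, Finset.mem_filter.mpr ⟨hm.1, hP2⟩⟩
  have hT : ∀ P, (T P).card ≤ (2 ^ (3 * W) - 1) ^ i := by
    intro P
    refine card_bad_le W P i (fun m => 9 ^ w * m) (T P)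
      (fun g hg => (Finset.mem_filter.mp hg).2) (fun g hg g' hg' h => ?_)
    have h1 : 9 ^ w * g ≡ 9 ^ w * g' [MOD 2 ^ (3 * W * i)] := h
    have h2 : g ≡ g' [MOD 2 ^ (3 * W * i)] :=
      Nat.ModEq.cancel_left_of_coprime (Nat.Coprime.pow _ _ (by norm_num : Nat.Coprime 2 9)) h1
    rw [← pow_mul] at hi1
    have hg1 := Finset.mem_Ico.mp (Finset.mem_filter.mp hg).1
    have hg2 := Finset.mem_Ico.mp (Finset.mem_filter.mp hg').1
    rcases le_total g g' with hle | hle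
    · have h3 := (Nat.modEq_iff_dvd' hle).mp h2
      rcases Nat.eq_zero_or_pos (g' - g) with h4 | h4
      · omega
      · have := Nat.le_of_dvd h4 h3
        omega
    · have h3 := (Nat.modEq_iff_dvd' hle).mp h2.symm
      rcases Nat.eq_zero_or_pos (g - g') with h4 | h4
      · omega
      · have := Nat.le_of_dvd h4 h3
        omega
  have hcard : S.card ≤ 6 ^ W * (2 ^ (3 * W) - 1) ^ i := by
    calc S.card ≤ ((Finset.range (6 ^ W)).biUnion T).card := Finset.card_le_card hsub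
      _ ≤ ∑ P ∈ Finset.range (6 ^ W), (T P).card := Finset.card_biUnion_le
      _ ≤ ∑ _P ∈ Finset.range (6 ^ W), (2 ^ (3 * W) - 1) ^ i := Finset.sum_le_sum fun P _ => hT P
      _ = 6 ^ W * (2 ^ (3 * W) - 1) ^ i := by simp
  calc (S.card : ℝ) ≤ ((6 ^ W * (2 ^ (3 * W) - 1) ^ i : ℕ) : ℝ) := by exact_mod_cast hcard
    _ = 6 ^ W * (((2 ^ (3 * W) - 1) ^ i : ℕ) : ℝ) := by push_cast; ring
    _ ≤ 6 ^ W * (C * (N : ℝ) ^ θ) := by gcongr
    _ = 6 ^ W * C * (N : ℝ) ^ θ := by ring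

end Pool.Agent.Lib.MP_881467_an
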